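import Pool.Agent.Lib.Sqf4.WinNF
import Pool.Agent.Lib.Sqf4.LastD
import Pool.Agent.Lib.Sqf4.LastT

set_option autoImplicit false

/-!
# MP_8842b2_nt: the primes `p` with `X ≤ p ≤ X^(1+1/(24 D))`

`f` a squarefree polynomial in one variable with integer coefficients, of degree at most `D`.  At
most `C X^(1-1/(192 D^2))` integers `n` with `|n| ≤ X` have `p^2 ∣ f(n)` for some prime `p` with
`X ≤ p ≤ X^(1+1/(24 D))`.
-/

namespace Pool.Agent.Results.MP_8842b2_nt.FirstRange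

theorem result (D : ℕ) (hD : 1 ≤ D) (f : Polynomial ℤ) (hf : f.natDegree ≤ D)
    (hs : Squarefree f) :
    ∃ C : ℝ, ∀ X : ℝ, 1 ≤ X → ∀ N : Finset ℤ,
      (∀ n ∈ N, |(n : ℝ)| ≤ X ∧ ∃ p : ℕ, p.Prime ∧ X ≤ p ∧
        (p : ℝ) ≤ X ^ (1 + 1 / (24 * (D : ℝ))) ∧ (p : ℤ) ^ 2 ∣ f.eval n) →
      (N.card : ℝ) ≤ C * X ^ (1 - 1 / (192 * (D : ℝ) ^ 2)) :=
  Pool.Agent.Lib.Sqf4.first_range
    (Pool.Agent.Lib.Sqf4.dyadicN_of_windowN fun _ _ _ _ hd h =>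
      Pool.Agent.Lib.Sqf4.windowN hd h) D hD f hf hs

end Pool.Agent.Results.MP_8842b2_nt.FirstRange
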