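import Pool.Agent.Lib.SqfH2.FinC

set_option autoImplicit false

/-!
# MP_8842b2_nt: binary forms of every degree, the primes `p` with `X < p ≤ X^(2+1/(2 D))`

`F` a squarefree binary form of degree `D` with integer coefficients.  At most
`C X^(2-1/(3 D^2))` vectors `v` with `|v 0| ≤ X` and `|v 1| ≤ X` have `p^2 ∣ F(v)` for some prime
`p` with `X < p ≤ X^(2+1/(2 D))`.
-/

namespace Pool.Agent.Results.MP_8842b2_nt.FormsFirstRange

theorem result (D : ℕ) (hD : 1 ≤ D) (F : MvPolynomial (Fin 2) ℤ) (hF : F.IsHomogeneous D)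
    (hsq : Squarefree F) :
    ∃ C : ℝ, ∀ X : ℝ, 1 ≤ X → ∀ N : Finset (Fin 2 → ℤ),
      (∀ v ∈ N, (∀ i, |(v i : ℝ)| ≤ X) ∧ ∃ p : ℕ, p.Prime ∧ X < p ∧
        (p : ℝ) ≤ X ^ (2 + 1 / (2 * (D : ℝ))) ∧ (p : ℤ) ^ 2 ∣ MvPolynomial.eval v F) →
      (N.card : ℝ) ≤ C * X ^ (2 - 1 / (3 * (D : ℝ) ^ 2)) :=
  Pool.Agent.Lib.SqfH2.forms_first_range D hD F hF hsq

end Pool.Agent.Results.MP_8842b2_nt.FormsFirstRange
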