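import Pool.Agent.Lib.SQF.FinalC
import Pool.Agent.Lib.SQF.ASlice
import Pool.Agent.Lib.SQF.BSlice

/-!
# Squarefree values of integer polynomials in one variable whose irreducible factors have degree at most 4

If `f` is a primitive squarefree integer polynomial in one variable all of whose irreducible factors have
degree at most `4`, then the values `f(n) / d_f`, `1 ≤ n ≤ N`, are squarefree with the expected density.
The statement is the frozen one with `h = 1` and the bound for the degrees of the irreducible factors.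
-/

set_option autoImplicit false

open Polynomial Pool.Agent.Lib.SQF

namespace Pool.Agent.Results.MP_8842b2_nt.QuarticFactors

theorem result (f : MvPolynomial (Fin 1) ℤ) (hprim : ∀ r : ℤ, (∀ m, r ∣ f.coeff m) → IsUnit r)
    (hsq : Squarefree f)
    (hdeg : ∀ q : MvPolynomial (Fin 1) ℤ, Irreducible q → q ∣ f → q.totalDegree ≤ 4)
    (δ : ℕ) (hδ : ∀ n : ℤ, (∀ v : Fin 1 → ℤ, n ∣ MvPolynomial.eval v f) ↔ n ∣ (δ : ℤ)) :
    Filter.Tendsto
      (fun N : ℕ => (Nat.card {v : Fin 1 → ℕ // (∀ i, 1 ≤ v i ∧ v i ≤ N) ∧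
          Squarefree (MvPolynomial.eval (fun i => (v i : ℤ)) f /
            ((∏ p ∈ δ.primeFactors, p ^ (δ.factorization p - 1) : ℕ) : ℤ))} : ℝ) / (N : ℝ) ^ 1)
      Filter.atTop
      (nhds (∏' p : Nat.Primes,
        (1 - (Nat.card {v : Fin 1 → Fin ((p : ℕ) ^ (2 + (δ.factorization (p : ℕ) - 1))) //
              (((p : ℕ) ^ (2 + (δ.factorization (p : ℕ) - 1)) : ℕ) : ℤ) ∣
                MvPolynomial.eval (fun i => ((v i : ℕ) : ℤ)) f} : ℝ) /
          (((p : ℕ) : ℝ) ^ (1 * (2 + (δ.factorization (p : ℕ) - 1))))))) :=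
  density_of_slices
    (fun _ hg hirr hd d0 d1 x0 x1 h0 h01 h1 hx0 hx01 hx hx1 hc =>
      aslice hg hirr hd d0 d1 x0 x1 h0 h01 h1 hx0 hx01 hx1 hx hc)
    (fun g hg hirr hd => sliceB g hg hirr hd) f hprim hsq hdeg δ hδ

end Pool.Agent.Results.MP_8842b2_nt.QuarticFactors
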