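import Pool.Agent.Lib.SQF2.Mv
import Pool.Agent.Lib.SQF.FinalC
import Pool.Agent.Lib.SQF.ASlice
import Pool.Agent.Lib.SQF.BSlice

/-!
# Squarefree values of integer polynomials in two variables: factors of `g(Q(x, y))`

Let `f` be a primitive squarefree integer polynomial in two variables such that every irreducible factor
of `f` divides `g(Q(x, y))` for an irreducible `g` in one variable of degree at most `4` and a `Q` of
total degree one, or of total degree at most two and not invariant under a nonzero integral translation.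
Then the values `f(x, y) / d_f`, `1 ≤ x, y ≤ N`, are squarefree with the expected density. The
statement is the frozen one with `h = 2` and this hypothesis on the irreducible factors.
-/

set_option autoImplicit false

open Polynomial Pool.Agent.Lib.SQF Pool.Agent.SQF2

namespace Pool.Agent.Results.MP_8842b2_nt.TwoVariables

/-- the windows of monic irreducible quartics -/
lemma windows (g : ℤ[X]) (hg : g.Monic) (hirr : Irreducible g) (hd : g.natDegree = 4) :
    RangeBoundL g (101 / 100) :=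
  ((rangeA_quartic hg hirr hd
    (fun d0 d1 x0 x1 h0 h01 h1 hx0 hx01 hx hx1 hc =>
      aslice hg hirr hd d0 d1 x0 x1 h0 h01 h1 hx0 hx01 hx1 hx hc)).glue
    (rangeB_quartic hg hirr hd (sliceB g hg hirr hd))).glue (rangeC g hg hirr hd)

theorem result (f : MvPolynomial (Fin 2) ℤ) (hprim : ∀ r : ℤ, (∀ m, r ∣ f.coeff m) → IsUnit r)
    (hsq : Squarefree f)
    (hfac : ∀ P : MvPolynomial (Fin 2) ℤ, Irreducible P → P ∣ f →
      ∃ (g : ℤ[X]) (Q : MvPolynomial (Fin 2) ℤ), Irreducible g ∧ g.natDegree ≤ 4 ∧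
        (Q.totalDegree = 1 ∨ (Q.totalDegree ≤ 2 ∧ ∀ w : Fin 2 → ℤ,
          (∀ v : Fin 2 → ℤ, MvPolynomial.eval (v + w) Q = MvPolynomial.eval v Q) → w = 0)) ∧
        P ∣ Polynomial.aeval Q g)
    (δ : ℕ) (hδ : ∀ n : ℤ, (∀ v : Fin 2 → ℤ, n ∣ MvPolynomial.eval v f) ↔ n ∣ (δ : ℤ)) :
    Filter.Tendsto
      (fun N : ℕ => (Nat.card {v : Fin 2 → ℕ // (∀ i, 1 ≤ v i ∧ v i ≤ N) ∧
          Squarefree (MvPolynomial.eval (fun i => (v i : ℤ)) f /
            ((∏ p ∈ δ.primeFactors, p ^ (δ.factorization p - 1) : ℕ) : ℤ))} : ℝ) / (N : ℝ) ^ 2)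
      Filter.atTop
      (nhds (∏' p : Nat.Primes,
        (1 - (Nat.card {v : Fin 2 → Fin ((p : ℕ) ^ (2 + (δ.factorization (p : ℕ) - 1))) //
              (((p : ℕ) ^ (2 + (δ.factorization (p : ℕ) - 1)) : ℕ) : ℤ) ∣
                MvPolynomial.eval (fun i => ((v i : ℕ) : ℤ)) f} : ℝ) /
          (((p : ℕ) : ℝ) ^ (2 * (2 + (δ.factorization (p : ℕ) - 1))))))) :=
  density_two windows f hsq hfac δ hδ

end Pool.Agent.Results.MP_8842b2_nt.TwoVariables
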